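import Pool.Agent.MP_3ee8cb_gt.D3FL.Spec
import Pool.Agent.MP_3ee8cb_gt.D3FR.Frame
import Pool.Agent.MP_3ee8cb_gt.TB.RGAM

/-! Frame data with one more derivative. -/

namespace Pool.Agent.MP_3ee8cb_gt.D3FL

open D3 CR D3.FR
open scoped RealInnerProductSpace

/-- One more derivative. -/
structure Sm3 (m : MF) : Prop where
  cR : ContDiff ℝ 3 m.R
  cS : ContDiff ℝ 3 m.S
  com : ContDiff ℝ 2 m.om
  cvf : ContDiff ℝ 2 m.vf

def SFRM3 : Prop := On1 fun h C _ _ _ Ψ => ContDiff ℝ 3 h → ∃ m : MF, m.OK ∧ Lk h C Ψ m ∧ Sm3 m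

variable {h : Met 3}

theorem nrm_c3 (r : Riem h) (s : ContDiff ℝ 3 h) {w : V → V} (hw : ContDiff ℝ 3 w)
    (h0 : ∀ y, w y ≠ 0) : ContDiff ℝ 3 (nrm h w) :=
  ((((s.clm_apply hw).clm_apply hw).sqrt fun y => (r.pos y _ (h0 y)).ne').inv
    fun y => (Real.sqrt_pos.2 (r.pos y _ (h0 y))).ne').smul hw

theorem uu_c3 (r : Riem h) (s : ContDiff ℝ 3 h) (i : Fin 3) : ContDiff ℝ 3 (uu h i) := by
  have a0 : ContDiff ℝ 3 (u0 h) := nrm_c3 r s contDiff_const fun _ => e0_ne
  have a1 : ContDiff ℝ 3 (u1 h) :=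
    nrm_c3 r s (contDiff_const.sub (((s.clm_apply contDiff_const).clm_apply a0).smul a0)) w1_ne
  have a2 : ContDiff ℝ 3 (u2 h) :=
    nrm_c3 r s ((contDiff_const.sub (((s.clm_apply contDiff_const).clm_apply a0).smul a0)).sub
      (((s.clm_apply contDiff_const).clm_apply a1).smul a1)) w2_ne
  fin_cases i
  exacts [a0, a1, a2]

theorem fm3 (r : Riem h) (s : ContDiff ℝ 3 h) :
    ∃ R S, Fm h R S ∧ ContDiff ℝ 3 R ∧ ContDiff ℝ 3 S := by
  let R : V → V →L[ℝ] V := fun y => ∑ i, (EuclideanSpace.proj i : V →L[ℝ] ℝ).smulRight (uu h i y)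
  let S : V → V →L[ℝ] V := fun y => ∑ i, (h y (uu h i y)).smulRight (e i)
  have hR : ∀ y a, R y a = ∑ i, a i • uu h i y := fun y a => by simp [R]
  have hS : ∀ y u, S y u = ∑ i, h y (uu h i y) u • e i := fun y u => by simp [S]
  have SR : ∀ y a, S y (R y a) = a := fun y a => by
    rw [hS, hR]
    ext j
    simp [uu_orth r, e, Pi.single_apply]
  have cR : ContDiff ℝ 3 R := ContDiff.sum fun i _ => contDiff_const.smulRight (uu_c3 r s i)
  have cS : ContDiff ℝ 3 S :=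
    ContDiff.sum fun i _ => (s.clm_apply (uu_c3 r s i)).smulRight contDiff_const
  refine ⟨R, S, ⟨cR.of_le (by norm_num), cS.of_le (by norm_num), SR, fun y u => ?_,
    fun y a b => ?_⟩, cR, cS⟩
  · have h1 : (S y : V →ₗ[ℝ] V) * (R y : V →ₗ[ℝ] V) = 1 := LinearMap.ext (SR y)
    exact LinearMap.congr_fun (mul_eq_one_comm.1 h1) u
  · rw [hR, hR]
    simp [uu_orth r, PiLp.inner_apply]

theorem chr_c2 {n : ℕ} {h : Met n} {C : TB.Chr n} (r : Riem h) (s : ContDiff ℝ 3 h)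
    (c : TB.IsChr h C) : ContDiff ℝ 2 C := by
  have hT : ∀ a b e : E n, ContDiff ℝ 2 fun x => fderiv ℝ h x a b e := fun a b e =>
    (((s.fderiv_right (m := 2) (by norm_num)).clm_apply contDiff_const).clm_apply
      contDiff_const).clm_apply contDiff_const
  have hi : ContDiff ℝ 2 fun x => ContinuousLinearMap.inverse (h x) := by
    refine contDiff_iff_contDiffAt.2 fun x => ?_
    obtain ⟨e, he⟩ := TB.gam_equiv r x
    have h1 : ContDiffAt ℝ 2 ContinuousLinearMap.inverse (h x) := by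
      rw [← he]
      exact contDiffAt_map_inverse e
    exact h1.comp x r.smooth.contDiffAt
  rw [contDiff_clm_apply_iff]
  intro u
  rw [contDiff_clm_apply_iff]
  intro v
  have hK : ContDiff ℝ 2 fun x => h x (C x u v) := by
    rw [contDiff_clm_apply_iff]
    intro w
    have e1 : (fun x => h x (C x u v) w) = fun x => (1 / 2 : ℝ) *
        (fderiv ℝ h x u v w + fderiv ℝ h x v u w - fderiv ℝ h x w u v) := by
      funext x
      rw [← c x u v w]
      ring
    rw [e1]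
    exact contDiff_const.mul (((hT u v w).add (hT v u w)).sub (hT w u v))
  have e2 : (fun x => C x u v) =
      fun x => ContinuousLinearMap.inverse (h x) (h x (C x u v)) := by
    funext x
    obtain ⟨e, he⟩ := TB.gam_equiv r x
    rw [← he]
    simp
  rw [e2]
  exact hi.clm_apply hK

theorem frm3_of (ode : TB.SODE) (cn : SCN) (cv : SCV) (gl : SGL) (fc : SFC) : SFRM3 := by
  intro h C Λ _ _ Ψ q c s
  have r := q.rp.riem
  have g := TB.gam 3 h C r c
  obtain ⟨R, S, f, cR, cS⟩ := fm3 r s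
  obtain ⟨om, k⟩ := cn h C R S r g f
  obtain ⟨Z, z0, z1, z2⟩ := gl h C Ψ ⟨R, S, om, fun _ z => z⟩ r q.rp.flow.zero
    (ode 3 h C Ψ r c g q.rp.flow) f k
  obtain ⟨c1, c2⟩ := fc (V × V) (MF.vf ⟨R, S, om, Z⟩) Z (vf_smooth _ f.cR k.com) z0 z1
  have co : ContDiff ℝ 2 om := by
    rw [contDiff_clm_apply_iff]
    intro u
    rw [contDiff_clm_apply_iff]
    intro a
    simp only [k.conn]
    exact f.cS.clm_apply ((((cR.fderiv_right (m := 2) (by norm_num)).clm_apply
      contDiff_const).clm_apply contDiff_const).add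
        (((chr_c2 r s c).clm_apply contDiff_const).clm_apply (f.cR.clm_apply contDiff_const)))
  have a : ContDiff ℝ 2 fun z : V × V => R z.1 z.2 :=
    (f.cR.comp contDiff_fst).clm_apply contDiff_snd
  exact ⟨⟨R, S, om, Z⟩, ⟨f.cR, f.cS, k.com, f.SR, f.RS, k.skew, k.tors, c1, z0, c2, z1⟩,
    ⟨f.orth, k.conn, cv h C ⟨R, S, om, Z⟩ g f k, z2⟩, cR, cS, co,
    a.prodMk (((co.comp contDiff_fst).clm_apply a).clm_apply contDiff_snd).neg⟩

/-- The action on pairs is of class `C²` if the action on points is of class `C³`. -/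
theorem act3 {m : MF} {Γ : Type} [Group Γ] [MulAction Γ V] {O : Γ → V → V ≃ₗᵢ[ℝ] V} (o : m.OK)
    (a : Act m Γ O) (γ : Γ) (s : ContDiff ℝ 3 fun x : V => γ • x) :
    ContDiff ℝ 2 fun z : V × V => (γ • z.1, O γ z.1 z.2) := by
  have e : ∀ z : V × V, O γ z.1 z.2 =
      m.S (γ • z.1) (fderiv ℝ (fun y : V => γ • y) z.1 (m.R z.1 z.2)) := fun z => by
    rw [a.der, o.SR]
  simp only [e]
  have s2 : ContDiff ℝ 2 fun z : V × V => γ • z.1 := (s.of_le (by norm_num)).comp contDiff_fst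
  exact s2.prodMk ((o.cS.comp s2).clm_apply (((s.fderiv_right (m := 2) (by norm_num)).comp
    contDiff_fst).clm_apply ((o.cR.comp contDiff_fst).clm_apply contDiff_snd)))

end Pool.Agent.MP_3ee8cb_gt.D3FL
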