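import Pool.Agent.MP_3ee8cb_gt.D3.Spec
import Pool.Agent.MP_3ee8cb_gt.TB.Fin
import Pool.Agent.MP_3ee8cb_gt.LV.RHM
import Pool.Agent.MP_3ee8cb_gt.LV.RMORSE
import Pool.Agent.MP_3ee8cb_gt.LV.RLP1
import Pool.Agent.MP_3ee8cb_gt.LV.RLPS
import Pool.Agent.MP_3ee8cb_gt.LV.RUQ
import Pool.Agent.MP_3ee8cb_gt.LV.RMIN2
import Pool.Agent.MP_3ee8cb_gt.LV.REQV

/-! A time shift makes a conjugacy commute with the flip. -/

namespace Pool.Agent.MP_3ee8cb_gt.D3FL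

open Set Filter Topology
open CR (E Met UT Riem Deck RP dd ng tm MinP DBP)
open LV (QP CJ UQ AddP MorseP LpsP EqvP)

namespace HFLP

variable {n : ℕ} {g h : Met n} {Γ Λ : Type} [Group Γ] [Group Λ] [MulAction Γ (E n)]
  [MulAction Λ (E n)] {Φ : ℝ → UT g → UT g} {Ψ : ℝ → UT h → UT h}

theorem ng_ng (p : UT g) : ng (ng p) = p := Subtype.ext (Prod.ext rfl (neg_neg _))

theorem ng_cont : Continuous (ng : UT g → UT g) :=
  ((continuous_fst.comp continuous_subtype_val).prodMk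
    (continuous_snd.comp continuous_subtype_val).neg).subtype_mk _

/-- The flip. -/
def ngH (g : Met n) : UT g ≃ₜ UT g := ⟨⟨ng, ng, ng_ng, ng_ng⟩, ng_cont, ng_cont⟩

/-- The time `c` map. -/
def flH (Q : QP h Λ Ψ) (c : ℝ) : UT h ≃ₜ UT h where
  toFun := Ψ c
  invFun := Ψ (-c)
  left_inv p := by rw [← Q.add, neg_add_cancel, Q.rp.flow.zero]
  right_inv p := by rw [← Q.add, add_neg_cancel, Q.rp.flow.zero]
  continuous_toFun := Q.jc.comp (continuous_const.prodMk continuous_id)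
  continuous_invFun := Q.jc.comp (continuous_const.prodMk continuous_id)

theorem cj_symm (dg : Deck g Γ) {ρ : Γ ≃* Λ} {F : UT g ≃ₜ UT h} (cj : CJ g h Φ Ψ ρ F) :
    CJ h g Ψ Φ ρ.symm F.symm := by
  refine ⟨fun t p => ?_, fun γ p q e => ?_⟩
  · apply F.injective
    rw [cj.flow, F.apply_symm_apply, F.apply_symm_apply]
  · have h1 := cj.equi (ρ.symm γ) (F.symm p) (CR.uc_mv dg (ρ.symm γ) (F.symm p)) rfl
    rw [F.apply_symm_apply, ρ.apply_symm_apply, ← e] at h1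
    rw [← Subtype.ext h1, F.symm_apply_apply]
    rfl

theorem cj_ng (qg : QP g Γ Φ) (qh : QP h Λ Ψ) {ρ : Γ ≃* Λ} {F : UT g ≃ₜ UT h}
    (cj : CJ g h Φ Ψ ρ F) : CJ g h Φ Ψ ρ ((ngH g).trans (F.trans (ngH h))) := by
  refine ⟨fun t p => ?_, fun γ p q e => ?_⟩
  · change ng (F (ng (Φ t p))) = Ψ t (ng (F (ng p)))
    have h1 := qg.rp.fl.rev (-t) p
    rw [neg_neg] at h1
    rw [← h1, cj.flow, qh.rp.fl.rev]
  · exact (LV.eqv_neg (ρ γ) _ _).2 (cj.equi γ _ _ ((LV.eqv_neg γ p q).2 e))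

/-- Orbits at bounded distance coincide. -/
theorem orbit (Q : QP h Λ Ψ) (mh : MinP h Ψ) (mo : MorseP h Ψ) {w w' : UT h} {D : ℝ}
    (hD : ∀ t, dd h (Ψ t w').1.1 (Ψ t w).1.1 ≤ D) : ∃ c, w' = Ψ c w := by
  have db := Q.rp.db
  have h1 : ∀ k : ℕ, ∃ σ ∈ Icc (-(D + 1)) (D + 1), ∀ t ∈ Icc (0 : ℝ) 1,
      dd h (Ψ (t + σ) w').1.1 (Ψ t w).1.1 ≤ 1 / ((k : ℝ) + 1) := fun k => by
    obtain ⟨J, hJ⟩ := mo D 1 (1 / ((k : ℝ) + 1)) (by positivity)
    obtain ⟨s, -, -, hs⟩ := hJ (max J 0) (le_max_left _ _) w (Ψ (-max J 0) w') (2 * max J 0)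
      (by positivity) (hD _) (by
        rw [← Q.add, show 2 * max J 0 + -max J 0 = max J 0 by ring]
        exact hD _)
    have h2 : ∀ t ∈ Icc (0 : ℝ) 1,
        dd h (Ψ (t + (s - max J 0)) w').1.1 (Ψ t w).1.1 ≤ 1 / ((k : ℝ) + 1) := fun t ht => by
      have := hs t (by rw [abs_of_nonneg ht.1]; exact ht.2)
      rwa [← Q.add, show s + t + -max J 0 = t + (s - max J 0) by ring] at this
    refine ⟨s - max J 0, abs_le.1 ?_, h2⟩
    have a1 := h2 0 ⟨le_rfl, zero_le_one⟩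
    have a2 := mh w' (0 + (s - max J 0)) 0
    have a3 := db.tri (Ψ (0 + (s - max J 0)) w').1.1 (Ψ 0 w).1.1 (Ψ 0 w').1.1
    have a4 := hD 0
    rw [db.symm] at a4
    have a5 : 1 / ((k : ℝ) + 1) ≤ 1 := by
      rw [div_le_one (by positivity)]
      linarith [Nat.cast_nonneg (α := ℝ) k]
    rw [a2, zero_add, sub_zero] at a3
    rw [zero_add] at a1
    linarith
  choose σ hσ hd using h1
  obtain ⟨s, -, φ, hφ, hs⟩ := isCompact_Icc.tendsto_subseq hσ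
  have e : Ψ s w' = w := by
    refine LV.uq_eq Q.rp.flow fun t ht => CR.geo_sep Q.rp.riem Q.rp.low ?_
    have t0 : Tendsto (fun k : ℕ => 1 / ((φ k : ℝ) + 1) + |σ (φ k) - s|) atTop (𝓝 0) := by
      have b1 := tendsto_one_div_add_atTop_nhds_zero_nat (𝕜 := ℝ) |>.comp hφ.tendsto_atTop
      have b2 := (hs.sub_const s).abs
      rw [sub_self, abs_zero] at b2
      have b3 := b1.add b2
      rw [add_zero] at b3
      exact b3
    refine ge_of_tendsto' t0 fun k => ?_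
    have a1 := hd (φ k) t ht
    have a2 := mh w' (t + σ (φ k)) (t + s)
    have a3 := db.tri (Ψ t w).1.1 (Ψ (t + σ (φ k)) w').1.1 (Ψ (t + s) w').1.1
    rw [db.symm] at a1
    rw [add_sub_add_left_eq_sub] at a2
    rw [← Q.add]
    linarith
  exact ⟨-s, by rw [← e, ← Q.add, neg_add_cancel, Q.rp.flow.zero]⟩

/-- Asymptotic vectors have the same shift. -/
theorem asym (qg : QP g Γ Φ) (qh : QP h Λ Ψ) (mh : MinP h Ψ) {F G : UT g ≃ₜ UT h}
    (fF : ∀ t p, F (Φ t p) = Ψ t (F p)) (fG : ∀ t p, G.symm (Ψ t p) = Φ t (G.symm p))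
    (uF : UQ g h Ψ F) (uG : UQ h g Φ G.symm) (l : Filter ℝ) [l.NeBot]
    (hl : ∀ P : ℝ → Prop, (∀ᶠ t in l, P t) → ∀ᶠ t in l, ∀ τ ∈ Icc (0 : ℝ) 1, P (τ + t))
    (sh : ∀ c : ℝ, Tendsto (fun t => t + c) l l) {p p' : UT g} {c c' : ℝ}
    (e : G p = Ψ c (F p)) (e' : G p' = Ψ c' (F p'))
    (H : Tendsto (fun t => dd h (Ψ t (F p)).1.1 (Ψ t (F p')).1.1) l (𝓝 0)) : c = c' := by
  have db := qh.rp.db
  have h1 := LV.min2_lim qg.rp.db qh.add fF uF l hl p p' H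
  have h2 := LV.min2_lim db qg.add fG uG l hl (G p) (G p')
    (by simpa only [G.symm_apply_apply] using h1)
  have h3 := h2.add (H.comp (sh c'))
  rw [add_zero] at h3
  have h4 : |c - c'| ≤ 0 := ge_of_tendsto' h3 fun t => by
    have a2 := mh (F p) (t + c) (t + c')
    have a3 := db.tri (Ψ (t + c) (F p)).1.1 (Ψ (t + c') (F p')).1.1 (Ψ (t + c') (F p)).1.1
    rw [add_sub_add_left_eq_sub] at a2
    rw [db.symm (Ψ (t + c') (F p')).1.1] at a3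
    rw [e, e', ← qh.add, ← qh.add]
    change _ ≤ _ + dd h (Ψ (t + c') (F p)).1.1 (Ψ (t + c') (F p')).1.1
    linarith
  exact sub_eq_zero.1 (abs_nonpos_iff.1 h4)

theorem flip (hn : 3 ≤ n) (qg : QP g Γ Φ) (qh : QP h Λ Ψ) {ρ : Γ ≃* Λ} {F : UT g ≃ₜ UT h}
    (cj : CJ g h Φ Ψ ρ F) {a : ℝ} (ha : 0 < a) (hc : TB.CurvLe h a) :
    MinP g Φ ∧ ∃ (c : ℝ) (F' : UT g ≃ₜ UT h), (∀ p, F' p = Ψ c (F p)) ∧ CJ g h Φ Ψ ρ F' ∧
      ∀ p, F' (ng p) = ng (F' p) := by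
  have hi : LV.Hinge h Ψ a := fun p q e s t hs ht => by
    have := TB.hinge n h Λ Ψ a qh.rp ha hc p q e s t hs ht
    rwa [mul_assoc] at this
  obtain ⟨mh, i2⟩ := LV.hm n h Λ Ψ qh a ha hi
  have th := LV.th n h Λ Ψ qh a ha mh i2
  have eh := LV.eqv n h Λ Ψ qh mh
  have mo := LV.morse n h Λ Ψ qh a ha mh th
  have lp := LV.lps n h Λ Ψ qh a ha mh th (LV.lp1 n h Λ Ψ qh a ha mh i2)
  have uF := LV.uq n g h Γ Λ Φ Ψ ρ F qg qh cj eh
  obtain ⟨mg, -⟩ := LV.min2 n g h Γ Λ Φ Ψ ρ F qg qh cj uF mo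
  have eg := LV.eqv n g Γ Φ qg mg
  obtain ⟨G, cG, hG⟩ : ∃ G : UT g ≃ₜ UT h, CJ g h Φ Ψ ρ G ∧ ∀ p, G p = ng (F (ng p)) :=
    ⟨_, cj_ng qg qh cj, fun _ => rfl⟩
  have sG := cj_symm qg.rp.deck cG
  have uG := LV.uq n h g Λ Γ Ψ Φ ρ.symm G.symm qh qg sG eg
  obtain ⟨D, hD⟩ := uF.bdd
  have ex : ∀ p, ∃ c, G p = Ψ c (F p) := fun p => orbit qh mh mo (D := D) fun t => by
    rw [← cG.flow, ← cj.flow, hG]
    exact hD (ng (Φ t p)) (Φ t p) rfl
  choose c hc using ex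
  have inv : ∀ t p, c (Φ t p) = c p := fun t p => by
    have a1 := hc (Φ t p)
    rw [cG.flow, hc p, cj.flow, ← qh.add, ← qh.add] at a1
    have a2 := mh (F p) (t + c p) (c (Φ t p) + t)
    rw [a1, qh.rp.db.refl] at a2
    have := abs_eq_zero.1 a2.symm
    linarith
  have lc : IsLocallyConstant c := (IsLocallyConstant.iff_eventually_eq c).2 fun p₀ => by
    obtain ⟨U, hU, H⟩ := lp (F p₀) 1 one_pos
    filter_upwards [F.continuous.continuousAt hU] with p hp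
    obtain ⟨u, t₀, -, hb, ht⟩ := H (F p) hp (F p₀) (mem_of_mem_nhds hU)
    obtain ⟨v, rfl⟩ := F.surjective u
    rw [← cj.flow] at ht
    have b1 := asym qg qh mh cj.flow sG.flow uF uG atBot (fun P hP => by
      obtain ⟨T, hT⟩ := eventually_atBot.1 hP
      exact eventually_atBot.2 ⟨T - 1, fun t ht τ hτ => hT _ (by linarith [hτ.2])⟩)
      (fun c => tendsto_atBot_add_const_right _ c tendsto_id) (hc v) (hc p) hb
    have b2 := asym qg qh mh cj.flow sG.flow uF uG atTop (fun P hP => by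
      obtain ⟨T, hT⟩ := eventually_atTop.1 hP
      exact eventually_atTop.2 ⟨T, fun t ht τ hτ => hT _ (by linarith [hτ.1])⟩)
      (fun c => tendsto_atTop_add_const_right _ c tendsto_id) (hc _) (hc p₀) ht
    rw [← b1, ← b2, inv]
  obtain ⟨⟨p₀⟩, pc, -⟩ := CR.lift_ut hn qg.rp.riem
  have cc : ∀ p, c p = c p₀ := fun p => lc.apply_eq_of_preconnectedSpace p p₀
  refine ⟨mg, c p₀ / 2, F.trans (flH qh (c p₀ / 2)), fun _ => rfl, ⟨fun t p => ?_,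
    fun γ p q e => eh (ρ γ) _ _ (cj.equi γ p q e) _⟩, fun p => ?_⟩
  · change Ψ _ (F (Φ t p)) = Ψ t (Ψ _ (F p))
    rw [cj.flow, ← qh.add, ← qh.add, add_comm]
  · change Ψ _ (F (ng p)) = ng (Ψ _ (F p))
    have a1 : F (ng p) = ng (Ψ (c p₀) (F p)) := by rw [← cc p, ← hc, hG, ng_ng]
    rw [a1, qh.rp.fl.rev, ← qh.add, show -(c p₀ / 2) + c p₀ = c p₀ / 2 by ring]

end HFLP

theorem flp : D3.SFLP := fun _ _ _ _ _ _ _ _ _ _ _ _ _ _ qg qh _ _ _ _ cj _ ha hc =>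
  HFLP.flip le_rfl qg qh cj ha hc

end Pool.Agent.MP_3ee8cb_gt.D3FL
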