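import Pool.Agent.MP_3ee8cb_gt.D3FL.HSpec
import Pool.Agent.MP_3ee8cb_gt.TB.RTST

/-! The logarithm measures the distance. -/

namespace Pool.Agent.MP_3ee8cb_gt.D3FL

open D3 Set Filter Topology
open CR (Met UT Riem Deck RP dd ng tm MinP DBP)
open LV (QP CJ)
open scoped RealInnerProductSpace

namespace RDIST

theorem der_le (m : MF) (lg : V × V → V) (o : m.OK) (e : ExB m) (l : Lg m lg) (y x : V) :
    ∃ D : V →L[ℝ] V, HasFDerivAt (fun x => lg (y, x)) D x ∧ ∀ ζ, ‖D ζ‖ ≤ ‖m.S x ζ‖ := by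
  have h1 : DifferentiableAt ℝ (fun x => lg (y, x)) x :=
    ((l.c1.differentiable one_ne_zero) _).comp x
      ((differentiableAt_const y).prodMk differentiableAt_id)
  refine ⟨_, h1.hasFDerivAt, fun ζ => ?_⟩
  set D := fderiv ℝ (fun x => lg (y, x)) x with hD
  have hZ : Differentiable ℝ (m.Z 1) := by
    have : ContDiff ℝ 1 (m.Z 1) := o.cZ.comp (contDiff_const.prodMk contDiff_id)
    exact this.differentiable one_ne_zero
  have h2 : HasFDerivAt (fun x => ((y, lg (y, x)) : V × V))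
      ((0 : V →L[ℝ] V).prod D) x := (hasFDerivAt_const y x).prodMk h1.hasFDerivAt
  have h3 := ((hZ (y, lg (y, x))).hasFDerivAt.comp x h2).fst
  have h4 : (fun x => ((m.Z 1 ∘ fun x => ((y, lg (y, x)) : V × V)) x).1) = id := by
    funext z
    exact l.ex y z
  rw [h4] at h3
  have h5 := congrArg (fun L : V →L[ℝ] V => L ζ) (h3.unique (hasFDerivAt_id x))
  have h6 : (fderiv ℝ (m.Z 1) (y, lg (y, x)) (0, D ζ)).1 = ζ := by simpa using h5
  have h7 := e.exp y (lg (y, x)) (D ζ)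
  have h8 : m.J (y, lg (y, x)) (0, D ζ) 1 = m.S x ζ := by
    simp only [MF.J, MF.hor, ContinuousLinearMap.comp_apply, ContinuousLinearMap.coe_fst', h6,
      l.ex]
  rwa [h8] at h7

theorem norm_S {h : Met 3} {C : TB.Chr 3} {Ψ : ℝ → UT h → UT h} {m : MF} (o : m.OK)
    (k : Lk h C Ψ m) (x ζ : V) : ‖m.S x ζ‖ = √(h x ζ ζ) := by
  have := k.orth x (m.S x ζ) (m.S x ζ)
  rw [o.RS] at this
  rw [this, real_inner_self_eq_norm_sq, Real.sqrt_sq (norm_nonneg _)]

theorem lip {h : Met 3} {C : TB.Chr 3} {Ψ : ℝ → UT h → UT h} {m : MF} {lg : V × V → V}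
    (hr : Riem h) (db : DBP h) (o : m.OK) (k : Lk h C Ψ m) (e : ExB m) (l : Lg m lg)
    (y x x' : V) : ‖lg (y, x) - lg (y, x')‖ ≤ dd h x' x := by
  by_cases h0 : lg (y, x) - lg (y, x') = 0
  · rw [h0, norm_zero]
    exact db.nonneg _ _
  set v := lg (y, x) - lg (y, x') with hv
  have hn : 0 < ‖v‖ := norm_pos_iff.2 h0
  set a : V := ‖v‖⁻¹ • v with ha
  have ha1 : ‖a‖ = 1 := by
    rw [ha, norm_smul, norm_inv, norm_norm, inv_mul_cancel₀ hn.ne']
  have hc : Continuous fun z => ⟪a, lg (y, z)⟫ :=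
    continuous_const.inner (l.c1.continuous.comp (continuous_const.prodMk continuous_id))
  have key := db.test (fun z => ⟪a, lg (y, z)⟫) (TB.tst 3 h _ y hr db hc (fun z _ => by
    obtain ⟨D, hD, hb⟩ := der_le m lg o e l y z
    refine ⟨(innerSL ℝ a).comp D, (innerSL ℝ a).hasFDerivAt.comp z hD, fun η => ?_⟩
    rw [← norm_S o k]
    calc ((innerSL ℝ a).comp D) η = ⟪a, D η⟫ := rfl
      _ ≤ ‖a‖ * ‖D η‖ := real_inner_le_norm _ _
      _ ≤ ‖m.S z η‖ := by rw [ha1, one_mul]; exact hb η)) x' x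
  have h2 : ⟪a, lg (y, x)⟫ - ⟪a, lg (y, x')⟫ = ‖v‖ := by
    rw [← inner_sub_right, ← hv, ha, real_inner_smul_left, real_inner_self_eq_norm_sq]
    field_simp
  rw [← h2]
  exact key

theorem z0 {m : MF} (o : m.OK) (j : m.Jac) (y : V) : (m.Z 1 (y, 0)).1 = y := by
  have := j.scale 1 0 y 0
  rw [zero_smul, zero_mul, o.zero] at this
  rw [this]

end RDIST

theorem dist_ : SDIST := by
  intro h C Λ _ _ Ψ q _ m lg o j k e l
  have db := q.rp.db
  refine ⟨fun y b b' => ?_, fun y z => le_antisymm ?_ ?_⟩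
  · have := RDIST.lip q.rp.riem db o k e l y (m.Z 1 (y, b)).1 (m.Z 1 (y, b')).1
    rw [l.xe, l.xe, db.symm] at this
    exact this
  · have := RDIST.lip q.rp.riem db o k e l y z y
    have h0 : lg (y, y) = 0 := by
      have := l.xe y 0
      rwa [RDIST.z0 o j] at this
    rwa [h0, sub_zero] at this
  · by_cases h0 : lg (y, z) = 0
    · have h1 := l.ex y z
      rw [h0, RDIST.z0 o j] at h1
      rw [h0, ← h1, db.refl, norm_zero]
    set v := lg (y, z) with hv
    have hn : 0 < ‖v‖ := norm_pos_iff.2 h0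
    set a : V := ‖v‖⁻¹ • v with ha
    have ha1 : ‖a‖ = 1 := by
      rw [ha, norm_smul, norm_inv, norm_norm, inv_mul_cancel₀ hn.ne']
    have hva : v = ‖v‖ • a := by
      rw [ha, smul_smul, mul_inv_cancel₀ hn.ne', one_smul]
    let p : UT h := ⟨(y, m.R y a), by
      show h y (m.R y a) (m.R y a) = 1
      rw [k.orth, real_inner_self_eq_norm_sq, ha1, one_pow]⟩
    have h1 := k.flow ‖v‖ p
    have h2 : (p.1.1, m.S p.1.1 p.1.2) = (y, a) := by
      show (y, m.S y (m.R y a)) = (y, a)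
      rw [o.SR]
    rw [h2] at h1
    have h3 : z = (Ψ ‖v‖ p).1.1 := by
      have h4 := l.ex y z
      rw [← hv, hva, j.scale, mul_one, h1] at h4
      exact h4.symm
    have h5 := q.rp.fl.lip p 0 ‖v‖
    rw [q.rp.flow.zero, ← h3, zero_sub, abs_neg, abs_of_pos hn] at h5
    exact h5

end Pool.Agent.MP_3ee8cb_gt.D3FL
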