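import Pool.Agent.MP_3ee8cb_gt.D3FL.HSpec

/-! The Gauss lemma and the gradient of the squared distance. -/

namespace Pool.Agent.MP_3ee8cb_gt.D3FL

open D3 Set
open scoped RealInnerProductSpace

namespace RGRAD

variable {m : MF}

theorem vel (ok : m.OK) (z : V × V) (t : ℝ) :
    HasDerivAt (fun s => (m.Z s z).2) (-m.w z t (m.Z t z).2) t := (ok.ode z t).snd

theorem w_skew (ok : m.OK) (z : V × V) (t : ℝ) (a b : V) : ⟪m.w z t a, b⟫ = -⟪a, m.w z t b⟫ :=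
  ok.skew _ _ a b

theorem Z0 (ok : m.OK) : m.Z 0 = id := funext ok.zero

theorem J0 (ok : m.OK) (z ξ : V × V) : m.J z ξ 0 = m.hor z ξ := by
  rw [MF.J, Z0 ok, fderiv_id]
  rfl

theorem J0' (ok : m.OK) (z ξ : V × V) : m.J' z ξ 0 = m.ver z ξ := by
  rw [MF.J', Z0 ok, fderiv_id]
  rfl

theorem nor' (ok : m.OK) (j : m.Jac) (z ξ : V × V) (t : ℝ) :
    ⟪m.J' z ξ t, (m.Z t z).2⟫ = ⟪m.ver z ξ, z.2⟫ := by
  have h1 : ∀ s, HasDerivAt (fun s => ⟪m.J' z ξ s, (m.Z s z).2⟫) 0 s := fun s => by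
    refine ((j.d2 z ξ s).inner ℝ (vel ok z s)).congr_deriv ?_
    have a1 := j.sK (m.Z s z).1 (m.J z ξ s) (m.Z s z).2 (m.Z s z).2 (m.Z s z).2
    rw [real_inner_comm] at a1
    rw [inner_sub_left, inner_neg_left, inner_neg_right, w_skew ok, real_inner_comm (m.Z s z).2]
    linarith
  have h2 := is_const_of_deriv_eq_zero (f := fun s => ⟪m.J' z ξ s, (m.Z s z).2⟫)
    (fun s => (h1 s).differentiableAt) (fun s => (h1 s).deriv) t 0
  simpa only [J0' ok, ok.zero] using h2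

/-- The Gauss lemma. -/
theorem nor (ok : m.OK) (j : m.Jac) (z ξ : V × V) (t : ℝ) :
    ⟪m.J z ξ t, (m.Z t z).2⟫ = ⟪m.hor z ξ, z.2⟫ + t * ⟪m.ver z ξ, z.2⟫ := by
  have h1 : ∀ s, HasDerivAt (fun s => ⟪m.J z ξ s, (m.Z s z).2⟫ - s * ⟪m.ver z ξ, z.2⟫) 0 s :=
    fun s => by
      refine (((j.d1 z ξ s).inner ℝ (vel ok z s)).sub
        ((hasDerivAt_id s).mul_const ⟪m.ver z ξ, z.2⟫)).congr_deriv ?_
      rw [inner_sub_left, inner_neg_right, w_skew ok, nor' ok j]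
      ring
  have h2 := is_const_of_deriv_eq_zero
    (f := fun s => ⟪m.J z ξ s, (m.Z s z).2⟫ - s * ⟪m.ver z ξ, z.2⟫)
    (fun s => (h1 s).differentiableAt) (fun s => (h1 s).deriv) t 0
  simp only [J0 ok, ok.zero, zero_mul, sub_zero] at h2
  linarith

theorem rev (ok : m.OK) (j : m.Jac) {lg : V × V → V} (l : Lg m lg) (y z : V) :
    lg (z, y) = -(m.Z 1 (y, lg (y, z))).2 := by
  have h1 := j.scale 1 (-1) (m.Z 1 (y, lg (y, z))).1 (m.Z 1 (y, lg (y, z))).2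
  rw [Prod.mk.eta, ← ok.add, mul_one, neg_add_cancel, ok.zero, neg_one_smul, l.ex] at h1
  have h2 := l.xe z (-(m.Z 1 (y, lg (y, z))).2)
  rw [h1] at h2
  exact h2

end RGRAD

open RGRAD in
theorem grad : SGRAD := by
  intro m lg ok j l
  refine ⟨rev ok j l, fun q ξ => ?_⟩
  have hl : HasFDerivAt lg (fderiv ℝ lg q) q := (l.c1.differentiable one_ne_zero q).hasFDerivAt
  have hZ : HasFDerivAt (m.Z 1) (fderiv ℝ (m.Z 1) (q.1, lg q)) (q.1, lg q) :=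
    ((ok.cZ.comp (contDiff_const.prodMk contDiff_id)).differentiable one_ne_zero _).hasFDerivAt
  have h1 := (hZ.comp q (hasFDerivAt_fst.prodMk hl)).fst
  have h2 : (fun x : V × V => ((m.Z 1 ∘ fun x : V × V => (x.1, lg x)) x).1) = Prod.snd :=
    funext fun x => l.ex x.1 x.2
  rw [h2] at h1
  have h3 : (fderiv ℝ (m.Z 1) (q.1, lg q) (ξ.1, fderiv ℝ lg q ξ)).1 = ξ.2 :=
    congrArg (fun T : V × V →L[ℝ] V => T ξ) (h1.unique hasFDerivAt_snd)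
  have h4 := nor ok j (q.1, lg q) (ξ.1, fderiv ℝ lg q ξ) 1
  have h5 : m.J (q.1, lg q) (ξ.1, fderiv ℝ lg q ξ) 1 = m.S q.2 ξ.2 := by
    show m.S (m.Z 1 (q.1, lg q)).1 (fderiv ℝ (m.Z 1) (q.1, lg q) (ξ.1, fderiv ℝ lg q ξ)).1 = _
    rw [h3, l.ex q.1 q.2]
  have h6 : (m.Z 1 (q.1, lg q)).2 = -lg q.swap := by
    rw [show lg q.swap = _ from rev ok j l q.1 q.2, neg_neg]
  have h7 : ⟪m.om q.1 ξ.1 (lg q), lg q⟫ = 0 := by
    have a1 := ok.skew q.1 ξ.1 (lg q) (lg q)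
    rw [real_inner_comm (m.om q.1 ξ.1 (lg q))] at a1
    linarith
  have h8 : m.ver (q.1, lg q) (ξ.1, fderiv ℝ lg q ξ) =
      fderiv ℝ lg q ξ + m.om q.1 ξ.1 (lg q) := rfl
  have h9 : m.hor (q.1, lg q) (ξ.1, fderiv ℝ lg q ξ) = m.S q.1 ξ.1 := rfl
  rw [h5, h6, h8, h9, inner_add_left, h7, inner_neg_right] at h4
  have h10 := (hl.norm_sq.const_mul (1 / 2 : ℝ)).fderiv
  have h11 : (fun q => ‖lg q‖ ^ 2 / 2) = fun q => (1 / 2 : ℝ) * ‖lg q‖ ^ 2 :=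
    funext fun q => by ring
  rw [h11, h10]
  simp only [smul_apply, ContinuousLinearMap.comp_apply, innerSL_apply_apply, smul_eq_mul,
    nsmul_eq_mul, Nat.cast_ofNat]
  rw [real_inner_comm (m.S q.1 ξ.1), real_inner_comm (m.S q.2 ξ.2),
    real_inner_comm (fderiv ℝ lg q ξ)]
  simp only at h4
  linarith

end Pool.Agent.MP_3ee8cb_gt.D3FL
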