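import Pool.Agent.MP_3ee8cb_gt.D3FL.HSpec

/-! The inverse of the exponential map is of class `C¹`. -/

namespace Pool.Agent.MP_3ee8cb_gt.D3FL

open D3 Set Filter Topology

theorem inv : SINV := by
  intro f g hf hl hr hi
  refine contDiff_iff_contDiffAt.2 fun w => ?_
  have hj : Function.Injective (fderiv ℝ f (g w) : V × V →ₗ[ℝ] V × V) :=
    (injective_iff_map_eq_zero _).2 (hi (g w))
  let e : (V × V) ≃L[ℝ] V × V := (LinearEquiv.ofInjectiveEndo _ hj).toContinuousLinearEquiv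
  have he : (e : V × V →L[ℝ] V × V) = fderiv ℝ f (g w) := ContinuousLinearMap.ext fun _ => rfl
  have h1 : ContDiffAt ℝ 1 f (g w) := hf.contDiffAt
  have h2 : HasFDerivAt f (e : V × V →L[ℝ] V × V) (g w) :=
    he ▸ (h1.differentiableAt one_ne_zero).hasFDerivAt
  have h3 := h1.to_localInverse h2 one_ne_zero
  have h4 := (h1.hasStrictFDerivAt' h2 one_ne_zero).eventually_right_inverse
  rw [hr] at h3 h4
  refine h3.congr_of_eventuallyEq (h4.mono fun y hy => ?_)
  exact (congrArg g hy).symm.trans (hl _)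

theorem lg_ : SLG := by
  intro m o x
  have hZ : ContDiff ℝ 1 (m.Z 1) := o.cZ.comp (contDiff_const.prodMk contDiff_id)
  let lg : V × V → V := fun q => Function.surjInv (x.bij q.1).2 q.2
  have ex : ∀ y z, (m.Z 1 (y, lg (y, z))).1 = z := fun y z => Function.surjInv_eq (x.bij y).2 z
  have xe : ∀ y b, lg (y, (m.Z 1 (y, b)).1) = b := fun y b => (x.bij y).1 (ex y _)
  refine ⟨lg, ?_, ex, xe⟩
  refine (inv (fun z => (z.1, (m.Z 1 z).1)) (fun q => (q.1, lg q)) (contDiff_fst.prodMk hZ.fst)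
    (fun z => Prod.ext rfl (xe z.1 z.2)) (fun w => Prod.ext rfl (ex w.1 w.2)) fun z ξ h => ?_).snd
  have h1 := (hasFDerivAt_fst (𝕜 := ℝ) (p := z)).prodMk
    (hZ.differentiable one_ne_zero z).hasFDerivAt.fst
  rw [h1.fderiv] at h
  have h2 : ξ.1 = 0 := congrArg Prod.fst h
  have h3 : (fderiv ℝ (m.Z 1) z ξ).1 = 0 := congrArg Prod.snd h
  obtain ⟨a, e⟩ := ξ
  obtain rfl : a = 0 := h2
  have h4 : m.J (z.1, z.2) (0, e) 1 = 0 := by
    show m.S (m.Z 1 z).1 (fderiv ℝ (m.Z 1) z (0, e)).1 = 0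
    rw [h3, map_zero]
  have h5 := x.exp z.1 z.2 e
  rw [h4, norm_zero] at h5
  rw [norm_le_zero_iff.1 h5]
  rfl

end Pool.Agent.MP_3ee8cb_gt.D3FL
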