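import Pool.Agent.MP_3ee8cb_gt.D3FL.HEXB
import Pool.Agent.MP_3ee8cb_gt.D3FL.RLG
import Pool.Agent.MP_3ee8cb_gt.D3FL.RGRAD
import Pool.Agent.MP_3ee8cb_gt.D3FL.RDIST

/-! The logarithm of a negatively curved space. -/

namespace Pool.Agent.MP_3ee8cb_gt.D3FL

theorem had : D3.SHAD := had_of exb lg_ grad dist_

end Pool.Agent.MP_3ee8cb_gt.D3FL
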