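import Pool.Agent.MP_3ee8cb_gt.D3FL.Spec

/-! The curvature form of the frame is the curvature tensor. -/

namespace Pool.Agent.MP_3ee8cb_gt.D3FL

open D3 CR
open scoped RealInnerProductSpace

theorem cv : SCV := by
  intro h C m g f k y a b c
  have key : ∀ y v c, m.R y (m.om y v c) = fderiv ℝ m.R y v c + C y v (m.R y c) :=
    fun y v c => by rw [k.conn, f.RS]
  have dR := (f.cR.differentiable (by norm_num) y).hasFDerivAt
  have dD := ((f.cR.fderiv_right (m := 1) (by norm_num)).differentiable (by norm_num) y).hasFDerivAt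
  have dC := (g.smooth.differentiable (by norm_num) y).hasFDerivAt
  have dO := (k.com.differentiable (by norm_num) y).hasFDerivAt
  have der : ∀ u v, m.R y (fderiv ℝ m.om y u v c) + fderiv ℝ m.R y u (m.om y v c) =
      fderiv ℝ (fderiv ℝ m.R) y u v c + (C y v (fderiv ℝ m.R y u c) +
        fderiv ℝ C y u v (m.R y c)) := fun u v => by
    have h1 := dR.clm_apply ((dO.clm_apply (hasFDerivAt_const v y)).clm_apply
      (hasFDerivAt_const c y))
    have h2 := ((dD.clm_apply (hasFDerivAt_const v y)).clm_apply (hasFDerivAt_const c y)).add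
      ((dC.clm_apply (hasFDerivAt_const v y)).clm_apply (dR.clm_apply (hasFDerivAt_const c y)))
    simp only [key] at h1
    have h3 := congrArg (fun L : V →L[ℝ] V => L u) (h1.unique h2)
    simpa using h3
  have sym : ∀ u v, fderiv ℝ (fderiv ℝ m.R) y u v = fderiv ℝ (fderiv ℝ m.R) y v u :=
    fun u v => (f.cR.contDiffAt.isSymmSndFDerivAt (by simp)).eq u v
  unfold MF.K
  generalize m.R y a = u
  generalize m.R y b = v
  rw [← f.SR y (m.Om y u v c)]
  congr 1
  have d1 := der u v
  have d2 := der v u
  rw [sym v u] at d2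
  simp only [MF.Om, TB.Rm, map_add, map_sub, key]
  rw [eq_sub_of_add_eq d1, eq_sub_of_add_eq d2]
  abel

end Pool.Agent.MP_3ee8cb_gt.D3FL
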