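import Pool.Agent.MP_3ee8cb_gt.D3FL.Spec
import Pool.Agent.MP_3ee8cb_gt.D3GB.RFRAME

/-! An orthonormal frame of class `C²`. -/

namespace Pool.Agent.MP_3ee8cb_gt.D3FL

open D3 CR
open scoped RealInnerProductSpace

theorem fm : SFM := by
  intro h r
  obtain ⟨θ, f⟩ := D3GB.rFRAME h r
  have hi : ∀ y, Function.Injective (θ y) := fun y => (injective_iff_map_eq_zero _).2 fun w hw =>
    f.pos y w 0 le_rfl (by rw [hw, zero_smul, add_zero])
  have he : ∀ y, ∃ e : V ≃L[ℝ] V, (e : V →L[ℝ] V) = θ y := fun y =>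
    ⟨(LinearEquiv.ofInjectiveEndo (θ y : V →ₗ[ℝ] V) (hi y)).toContinuousLinearEquiv, by
      ext1 u
      rfl⟩
  have h1 : ∀ y a, θ y ((θ y).inverse a) = a := fun y a => by
    obtain ⟨e, he⟩ := he y
    rw [← he]
    simp
  refine ⟨fun y => (θ y).inverse, θ, ?_, f.smooth, h1, fun y u => hi y (h1 y _), fun y a b => ?_⟩
  · refine contDiff_iff_contDiffAt.2 fun y => ?_
    obtain ⟨e, he⟩ := he y
    have h2 := contDiffAt_map_inverse (n := 2) e
    rw [he] at h2
    exact h2.comp y f.smooth.contDiffAt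
  · rw [← f.iso, h1, h1]

end Pool.Agent.MP_3ee8cb_gt.D3FL
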