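import Pool.Agent.MP_3ee8cb_gt.D3FL.Spec
import Pool.Agent.MP_3ee8cb_gt.TB.REXP

/-! Global solutions of the geodesic equation in a frame. -/

namespace Pool.Agent.MP_3ee8cb_gt.D3FL

open D3 CR TB

theorem gl_init {h : Met 3} {Ψ : ℝ → UT h → UT h} (r : Riem h) (h0 : ∀ p, Ψ 0 p = p)
    (y ξ : V) : exp_X r Ψ y ξ 0 = (y, ξ) := by
  unfold exp_X
  split_ifs with hξ
  · rw [hξ]
  · have hp := Real.sqrt_pos.2 (r.pos y ξ hξ)
    rw [mul_zero, h0]
    change (y, √(h y ξ ξ) • (√(h y ξ ξ))⁻¹ • ξ) = (y, ξ)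
    rw [smul_smul, mul_inv_cancel₀ hp.ne', one_smul]

theorem gl_ode {h : Met 3} {C : Chr 3} {Ψ : ℝ → UT h → UT h} (r : Riem h) (hode : OdeP h C Ψ)
    (y ξ : V) (t : ℝ) : HasDerivAt (exp_X r Ψ y ξ) (gf C (exp_X r Ψ y ξ t)) t := by
  unfold exp_X
  by_cases hξ : ξ = 0
  · simp only [dif_pos hξ]
    have e : gf C ((y, 0) : E 3 × E 3) = 0 := by simp [gf]
    rw [e]
    exact hasDerivAt_const t _
  · simp only [dif_neg hξ]
    generalize √(h y ξ ξ) = c
    generalize exp_u r y ξ hξ = p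
    have H : HasDerivAt (fun s => (Ψ (c * s) p).1) (c • gf C (Ψ (c * t) p).1) t := by
      have h1 : HasDerivAt (fun s : ℝ => c * s) c t := by
        simpa using (hasDerivAt_id t).const_mul c
      exact (hode p (c * t)).scomp t h1
    have H1 := (ContinuousLinearMap.fst ℝ (E 3) (E 3)).hasFDerivAt.comp_hasDerivAt t H
    have H2 := ((ContinuousLinearMap.snd ℝ (E 3) (E 3)).hasFDerivAt.comp_hasDerivAt t
      H).const_smul c
    have e : gf C ((Ψ (c * t) p).1.1, c • (Ψ (c * t) p).1.2) =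
        (ContinuousLinearMap.fst ℝ (E 3) (E 3) (c • gf C (Ψ (c * t) p).1),
          c • ContinuousLinearMap.snd ℝ (E 3) (E 3) (c • gf C (Ψ (c * t) p).1)) := by
      simp [gf]
    rw [e]
    exact H1.prodMk H2

theorem gl_unit {h : Met 3} {Ψ : ℝ → UT h → UT h} (r : Riem h) (p : UT h) (t : ℝ) :
    exp_X r Ψ p.1.1 p.1.2 t = (Ψ t p).1 := by
  have h0 : p.1.2 ≠ 0 := fun e => by
    have := p.2
    rw [e] at this
    simp at this
  have h1 : √(h p.1.1 p.1.2 p.1.2) = 1 := by rw [p.2, Real.sqrt_one]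
  have h2 : exp_u r p.1.1 p.1.2 h0 = p := by
    refine Subtype.ext (Prod.ext rfl ?_)
    change (√(h p.1.1 p.1.2 p.1.2))⁻¹ • p.1.2 = p.1.2
    rw [h1, inv_one, one_smul]
  unfold exp_X
  rw [dif_neg h0, h2, h1, one_mul, one_smul]

/-- The derivative of the inverse frame. -/
theorem gl_dS {h : Met 3} {R S : V → V →L[ℝ] V} (f : Fm h R S) (y u w : V) :
    fderiv ℝ S y u w = -S y (fderiv ℝ R y u (S y w)) := by
  have dR : HasFDerivAt R (fderiv ℝ R y) y :=
    (f.cR.differentiable (by norm_num) y).hasFDerivAt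
  have dS : HasFDerivAt S (fderiv ℝ S y) y :=
    (f.cS.differentiable (by norm_num) y).hasFDerivAt
  have d1 := dR.clm_apply (dS.clm_apply (hasFDerivAt_const w y))
  have e : (fun x => R x (S x w)) = fun _ => w := funext fun x => f.RS x w
  rw [e] at d1
  have d2 := congrArg (fun L : V →L[ℝ] V => S y (L u)) (d1.unique (hasFDerivAt_const w y))
  simp only [ContinuousLinearMap.add_apply, ContinuousLinearMap.comp_apply,
    ContinuousLinearMap.flip_apply, ContinuousLinearMap.zero_apply, map_zero, zero_add, map_add,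
    f.SR] at d2
  exact eq_neg_of_add_eq_zero_left d2

theorem gl : SGL := by
  intro h C Ψ m r h0 hode f k
  refine ⟨fun t z => ((exp_X r Ψ z.1 (m.R z.1 z.2) t).1,
    m.S (exp_X r Ψ z.1 (m.R z.1 z.2) t).1 (exp_X r Ψ z.1 (m.R z.1 z.2) t).2), fun z => ?_,
    fun z t => ?_, fun t p => ?_⟩
  · simp only [gl_init r h0, f.SR]
  · have H := gl_ode r hode z.1 (m.R z.1 z.2) t
    beta_reduce
    generalize exp_X r Ψ z.1 (m.R z.1 z.2) = X at H ⊢
    have H1 : HasDerivAt (fun s => (X s).1) (X t).2 t :=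
      (ContinuousLinearMap.fst ℝ V V).hasFDerivAt.comp_hasDerivAt t H
    have H2 : HasDerivAt (fun s => (X s).2) (-C (X t).1 (X t).2 (X t).2) t :=
      (ContinuousLinearMap.snd ℝ V V).hasFDerivAt.comp_hasDerivAt t H
    have H3 : HasDerivAt (fun s => m.S (X s).1) (fderiv ℝ m.S (X t).1 (X t).2) t :=
      (f.cS.differentiable (by norm_num) (X t).1).hasFDerivAt.comp_hasDerivAt t H1
    have H4 := H1.prodMk (H3.clm_apply H2)
    have e : m.vf ((X t).1, m.S (X t).1 (X t).2) = ((X t).2,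
        fderiv ℝ m.S (X t).1 (X t).2 (X t).2 + m.S (X t).1 (-C (X t).1 (X t).2 (X t).2)) := by
      unfold MF.vf
      simp only [f.RS, k.conn, gl_dS f, map_add, map_neg, neg_add]
    rw [e]
    exact H4
  · simp only [f.RS, gl_unit r]

end Pool.Agent.MP_3ee8cb_gt.D3FL
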