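import Pool.Agent.MP_3ee8cb_gt.D3.Spec

/-! Block FL, second half: statements of the rows. -/

namespace Pool.Agent.MP_3ee8cb_gt.D3FL

open D3 Set Filter Topology
open CR (Met UT Riem Deck RP dd ng tm MinP DBP)
open LV (QP CJ)
open scoped RealInnerProductSpace

noncomputable section

/-! the conjugacy in frames -/

/-- `φ` is `F` read in the frames, on every ray. -/
def Val {g h : Met 3} (m m' : MF) (F : UT g → UT h) (φ : V × V → V × V) : Prop :=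
  ∀ (p : UT g) (r : ℝ), r ≠ 0 →
    φ (p.1.1, r • m.S p.1.1 p.1.2) = ((F p).1.1, r • m'.S (F p).1.1 (F p).1.2)

def SCF1 : Prop := ∀ (g h : Met 3) (C C' : TB.Chr 3) (Φ : ℝ → UT g → UT g) (Ψ : ℝ → UT h → UT h)
  (F : UT g → UT h) (m m' : MF), Riem g → m.OK → m'.OK → Lk g C Φ m → Lk h C' Ψ m' →
  (∀ p, F (ng p) = ng (F p)) → C1L F → ∃ φ, ContDiffOn ℝ 1 φ {z | z.2 ≠ 0} ∧ Val m m' F φ

/-- The algebraic fields of `CF`. -/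
structure CF0 (m m' : MF) (φ : V × V → V × V) : Prop where
  hom : ∀ (r : ℝ) x a, r ≠ 0 → a ≠ 0 → φ (x, r • a) = ((φ (x, a)).1, r • (φ (x, a)).2)
  norm : ∀ z, z.2 ≠ 0 → ‖(φ z).2‖ = ‖z.2‖
  flow : ∀ t z, z.2 ≠ 0 → φ (m.Z t z) = m'.Z t (φ z)
  inj : InjOn φ {z | z.2 ≠ 0}
  surj : ∀ w : V × V, w.2 ≠ 0 → ∃ z : V × V, z.2 ≠ 0 ∧ φ z = w
  nl : ∀ t z, ‖z.2‖ = 1 → (m.Z t z).1 = z.1 → t = 0

def SCF2 : Prop := On2 fun g h C C' Γ Λ _ _ _ _ Φ Ψ ρ F => ∀ (m m' : MF) O O' φ, m.OK → m.Jac →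
  m'.OK → m'.Jac → Lk g C Φ m → Lk h C' Ψ m' → Act m Γ O → Act m' Λ O' → MinP g Φ →
  Val m m' F φ → CF0 m m' φ ∧ Eqv ρ O O' φ

/-- The derivative of `φ` is bounded. -/
def Bd (m m' : MF) (φ : V × V → V × V) : Prop := ∃ C : ℝ, 0 ≤ C ∧ ∀ z ξ : V × V, ‖z.2‖ = 1 →
  ‖m'.hor (φ z) (fderiv ℝ φ z ξ)‖ + ‖m'.ver (φ z) (fderiv ℝ φ z ξ)‖ ≤
    C * (‖m.hor z ξ‖ + ‖m.ver z ξ‖)

def SCF3 : Prop := ∀ (m m' : MF) (φ : V × V → V × V) (Γ Λ : Type) [Group Γ] [Group Λ]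
  [MulAction Γ V] [MulAction Λ V] (ρ : Γ ≃* Λ) O O', m.OK → m'.OK → Act m Γ O → Act m' Λ O' →
  ContDiffOn ℝ 1 φ {z | z.2 ≠ 0} → Eqv ρ O O' φ → Bd m m' φ

/-! the logarithm -/

/-- A bijection of class `C¹` with injective derivatives has an inverse of class `C¹`. -/
def SINV : Prop := ∀ (f g : V × V → V × V), ContDiff ℝ 1 f → (∀ z, g (f z) = z) →
  (∀ w, f (g w) = w) → (∀ z ξ, fderiv ℝ f z ξ = 0 → ξ = 0) → ContDiff ℝ 1 g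

/-- The exponential map at `y` is bijective and does not shrink vectors. -/
structure ExB (m : MF) : Prop where
  bij : ∀ y, Function.Bijective fun b => (m.Z 1 (y, b)).1
  exp : ∀ y b e, ‖e‖ ≤ ‖m.J (y, b) (0, e) 1‖

def SEXB : Prop := On1 fun h C _ _ _ Ψ => ∀ (m : MF) (a : ℝ), m.OK → m.Jac → Lk h C Ψ m → 0 < a →
  TB.CurvLe h a → ExB m

/-- The inverse of the exponential map. -/
structure Lg (m : MF) (lg : V × V → V) : Prop where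
  c1 : ContDiff ℝ 1 lg
  ex : ∀ y z, (m.Z 1 (y, lg (y, z))).1 = z
  xe : ∀ y b, lg (y, (m.Z 1 (y, b)).1) = b

def SLG : Prop := ∀ m : MF, m.OK → ExB m → ∃ lg, Lg m lg

def SGRAD : Prop := ∀ (m : MF) (lg : V × V → V), m.OK → m.Jac → Lg m lg →
  (∀ y z, lg (z, y) = -(m.Z 1 (y, lg (y, z))).2) ∧
  ∀ q ξ : V × V, fderiv ℝ (fun q => ‖lg q‖ ^ 2 / 2) q ξ =
    -⟪lg q, m.S q.1 ξ.1⟫ - ⟪lg q.swap, m.S q.2 ξ.2⟫

def SDIST : Prop := On1 fun h C _ _ _ Ψ => ∀ (m : MF) (lg : V × V → V), m.OK → m.Jac →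
  Lk h C Ψ m → ExB m → Lg m lg →
  (∀ y b b', ‖b - b'‖ ≤ dd h (m.Z 1 (y, b)).1 (m.Z 1 (y, b')).1) ∧
    ∀ y z, ‖lg (y, z)‖ = dd h y z

theorem had_of (exb : SEXB) (slg : SLG) (grad : SGRAD) (dist : SDIST) : SHAD := by
  intro h C Λ _ _ Ψ q c m a o j k ha hc
  have e := exb h C Λ Ψ q c m a o j k ha hc
  obtain ⟨lg, l⟩ := slg m o e
  obtain ⟨g1, g2⟩ := grad m lg o j l
  obtain ⟨d1, d2⟩ := dist h C Λ Ψ q c m lg o j k e l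
  refine ⟨lg, ⟨l.c1, l.ex, l.xe, g1, fun x y z => ?_, fun y b b' => ?_, g2⟩, d2⟩
  · rw [d2, d2, d2]
    exact q.rp.db.tri x y z
  · rw [d2]
    exact d1 y b b'

end

end Pool.Agent.MP_3ee8cb_gt.D3FL
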