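import Pool.Agent.MP_3ee8cb_gt.D3FL.HSpec
import Pool.Agent.MP_3ee8cb_gt.TB.Fin

/-! The exponential map in frames is bijective and does not shrink vectors. -/

namespace Pool.Agent.MP_3ee8cb_gt.D3FL

open D3 Set
open CR (Met UT)
open scoped RealInnerProductSpace

namespace REXB

theorem polar (b : V) : ∃ u : V, ‖u‖ = 1 ∧ b = ‖b‖ • u := by
  rcases eq_or_ne b 0 with rfl | hb
  · obtain ⟨u, hu⟩ := exists_norm_eq V zero_le_one
    exact ⟨u, hu, by simp⟩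
  · have h0 : ‖b‖ ≠ 0 := norm_ne_zero_iff.2 hb
    refine ⟨‖b‖⁻¹ • b, ?_, ?_⟩
    · rw [norm_smul, norm_inv, norm_norm, inv_mul_cancel₀ h0]
    · rw [smul_smul, mul_inv_cancel₀ h0, one_smul]

theorem key {h : Met 3} {C C' : TB.Chr 3} {Ψ : ℝ → UT h → UT h} {m : MF} (o : m.OK) (j : m.Jac)
    (k : Lk h C Ψ m) {y : V} {X : V → ℝ → V × V} (hX : TB.ExpP h C' Ψ y X) (b : V) :
    (X (m.R y b) 1).1 = (m.Z 1 (y, b)).1 := by
  obtain ⟨u, hu, hb⟩ := polar b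
  have h1 : h y (m.R y u) (m.R y u) = 1 := by
    rw [k.orth, real_inner_self_eq_norm_sq, hu]; norm_num
  have e1 := hX.flow ⟨(y, m.R y u), h1⟩ ‖b‖ rfl (norm_nonneg b)
  have e2 := k.flow ‖b‖ ⟨(y, m.R y u), h1⟩
  have e3 := j.scale 1 ‖b‖ y u
  simp only [o.SR] at e1 e2
  rw [← hb, mul_one, e2] at e3
  rw [e3, ← e1, ← map_smul, ← hb]

theorem nsq {h : Met 3} {C : TB.Chr 3} {Ψ : ℝ → UT h → UT h} {m : MF} (o : m.OK)
    (k : Lk h C Ψ m) (x u : V) : h x u u = ‖m.S x u‖ ^ 2 := by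
  rw [← real_inner_self_eq_norm_sq, ← k.orth x, o.RS]

theorem dZ {m : MF} (o : m.OK) (t : ℝ) : Differentiable ℝ (m.Z t) := by
  have h1 : ContDiff ℝ 1 fun z : V × V => (t, z) := contDiff_const.prodMk contDiff_id
  exact (o.cZ.comp h1).differentiable one_ne_zero

end REXB

open REXB in
theorem exb : SEXB := by
  intro h C Λ _ _ Ψ q _ m a o j k ha hc
  obtain ⟨C1, c1, c2⟩ := hc
  have g := TB.gam 3 h C1 q.rp.riem c1
  have H : ∀ y : V, ∃ e : V → V, TB.DerP h y a e ∧ ∀ b, e (m.R y b) = (m.Z 1 (y, b)).1 := by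
    intro y
    obtain ⟨X, hX⟩ := TB.exp_ 3 h Λ Ψ C1 y q.rp (TB.ode 3 h C1 Ψ q.rp.riem c1 g q.rp.flow)
    exact ⟨_, TB.der TB.lin TB.str (TB.jac TB.pic) 3 h C1 Ψ a y X q.rp.riem g ha c2 hX,
      key o j k hX⟩
  refine ⟨fun y => ?_, fun y b v => ?_⟩
  · obtain ⟨e, d, he⟩ := H y
    obtain ⟨σ, -, s2, s3⟩ := TB.sec 3 e (TB.ray 3 h y e q.rp.riem fun ξ =>
      (d ξ).imp fun D hD => ⟨hD.1, fun η => (hD.2 η).1⟩)
    refine Function.bijective_iff_has_inverse.2 ⟨fun x => m.S y (σ x), fun b => ?_, fun x => ?_⟩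
    · simp only [← he, s2, o.SR]
    · simp only [← he, o.RS, s3]
  · obtain ⟨e, d, he⟩ := H y
    obtain ⟨D, hD, hl⟩ := d (m.R y b)
    have d1 : HasFDerivAt (fun c => e (m.R y c)) (D.comp (m.R y)) b :=
      hD.hasFDerivAt.comp b (m.R y).hasFDerivAt
    have d2 : HasFDerivAt (fun c : V => (m.Z 1 (y, c)).1) ((ContinuousLinearMap.fst ℝ V V).comp
        ((fderiv ℝ (m.Z 1) (y, b)).comp (ContinuousLinearMap.inr ℝ V V))) b :=
      (HasFDerivAt.comp b (dZ o 1 (y, b)).hasFDerivAt (hasFDerivAt_prodMk_right y b)).fst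
    simp only [he] at d1
    have e1 : D (m.R y v) = (fderiv ℝ (m.Z 1) (y, b) (0, v)).1 :=
      congrArg (fun L : V →L[ℝ] V => L v) (d1.unique d2)
    have h2 := (hl (m.R y v)).1
    rw [nsq o k, nsq o k, o.SR, he, e1] at h2
    exact (sq_le_sq₀ (norm_nonneg _) (norm_nonneg _)).1 h2

end Pool.Agent.MP_3ee8cb_gt.D3FL
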