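import Pool.Agent.MP_3ee8cb_gt.D3.Spec

/-! Row SC1: a time shift of a `C¹` conjugacy is of class `C¹`. -/

namespace Pool.Agent.MP_3ee8cb_gt.D3FL

open Set Filter Topology
open Pool.Agent.MP_3ee8cb_gt.D3
open CR (Met UT)

namespace RSC1

/-- the flow on the whole tangent bundle -/
noncomputable def T (m : MF) (c : ℝ) (z : V × V) : V × V :=
  ((m.Z c (z.1, m.S z.1 z.2)).1,
    m.R (m.Z c (z.1, m.S z.1 z.2)).1 (m.Z c (z.1, m.S z.1 z.2)).2)

lemma T_c1 {m : MF} (ok : m.OK) (c : ℝ) : ContDiff ℝ 1 (T m c) := by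
  have hS : ContDiff ℝ 1 m.S := ok.cS.of_le (by norm_num)
  have hR : ContDiff ℝ 1 m.R := ok.cR.of_le (by norm_num)
  have h1 : ContDiff ℝ 1 fun z : V × V => (z.1, m.S z.1 z.2) :=
    contDiff_fst.prodMk ((hS.comp contDiff_fst).clm_apply contDiff_snd)
  have h2 : ContDiff ℝ 1 fun z : V × V => m.Z c (z.1, m.S z.1 z.2) :=
    ok.cZ.comp (contDiff_const.prodMk h1)
  exact h2.fst.prodMk ((hR.comp h2.fst).clm_apply h2.snd)

lemma T_eq {h : Met 3} {C : TB.Chr 3} {Ψ : ℝ → UT h → UT h} {m : MF} (ok : m.OK)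
    (lk : Lk h C Ψ m) (c : ℝ) (p : UT h) : (Ψ c p).1 = T m c p.1 := by
  simp only [T, lk.flow, ok.RS]

end RSC1

theorem sc1 (frm : SFRM) : SC1 := by
  intro g h C C' Γ Λ _ _ _ _ Φ Ψ ρ F _ qh _ hC' _ _ _ c F' hF' h1 h2
  obtain ⟨m, ok, lk⟩ := frm h C' Λ Ψ qh hC'
  constructor
  · intro p
    obtain ⟨G, hG, he⟩ := h1 p
    refine ⟨RSC1.T m c ∘ G, (RSC1.T_c1 ok c).contDiffAt.comp _ hG, ?_⟩
    filter_upwards [he] with q hq
    rw [hF', RSC1.T_eq ok lk, hq, Function.comp_apply]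
  · intro q
    have hinv : ∀ x, F'.symm x = F.symm (Ψ (-c) x) := fun x => by
      rw [Homeomorph.symm_apply_eq, hF', Homeomorph.apply_symm_apply, ← qh.add, add_neg_cancel,
        qh.rp.flow.zero]
    obtain ⟨G, hG, he⟩ := h2 (Ψ (-c) q)
    have hc : Continuous fun x => Ψ (-c) x := qh.jc.comp (continuous_const.prodMk continuous_id)
    refine ⟨G ∘ RSC1.T m (-c), ?_, ?_⟩
    · rw [RSC1.T_eq ok lk] at hG
      exact hG.comp _ (RSC1.T_c1 ok (-c)).contDiffAt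
    · filter_upwards [(hc.tendsto q).eventually he] with x hx
      rw [hinv, hx, RSC1.T_eq ok lk, Function.comp_apply]

end Pool.Agent.MP_3ee8cb_gt.D3FL
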